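import Pool.Agent.N977.P.Stm

/-!
# NSP/PK2: the L¹ norm of the packets (helper441, for helper977)
-/

set_option autoImplicit false

open MeasureTheory Set Filter Topology
open scoped ComplexConjugate

namespace Pool.Agent.N441.NSP

open H459R3.NS Pool.Agent.N977.Q Pool.Agent.N977.S Pool.Agent.N977.P

/-- the triangle function in one variable -/
noncomputable def tt (J : ℕ) (m : ℤ) : ℝ := max 0 (1 - |(m : ℝ)| / J)

/-- the frequency `(m, n, 0)` -/
def vc (m n : ℤ) : K3 := ![m, n, 0]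

/-- the support in one variable -/
noncomputable def RR (J : ℕ) : Finset ℤ := Finset.Ioo (-(J : ℤ)) J

theorem mem_RR {J : ℕ} {m : ℤ} : m ∈ RR J ↔ m.natAbs < J := by
  unfold RR
  rw [Finset.mem_Ioo]
  omega

/-- the support -/
noncomputable def SS (J : ℕ) : Finset K3 := (RR J ×ˢ RR J).image fun p => vc p.1 p.2

theorem tt_out {J : ℕ} (hJ : 1 ≤ J) {m : ℤ} (h : m ∉ RR J) : tt J m = 0 := by
  rw [mem_RR, not_lt] at h
  unfold tt
  have hJ0 : (0 : ℝ) < J := by exact_mod_cast hJ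
  refine max_eq_left ?_
  have h1 : (J : ℝ) ≤ |(m : ℝ)| := by
    rw [← Int.cast_abs, Int.abs_eq_natAbs]
    exact_mod_cast h
  have h2 : 1 ≤ |(m : ℝ)| / J := (one_le_div hJ0).2 h1
  linarith

theorem tt_in {J : ℕ} (hJ : 1 ≤ J) {m : ℤ} (h : m ∈ RR J) :
    (J : ℝ) * tt J m = ((J - m.natAbs : ℕ) : ℝ) := by
  rw [mem_RR] at h
  unfold tt
  have hJ0 : (0 : ℝ) < J := by exact_mod_cast hJ
  have h0 : |(m : ℝ)| = (m.natAbs : ℝ) := by
    rw [← Int.cast_abs, Int.abs_eq_natAbs]
    rfl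
  have h1 : |(m : ℝ)| ≤ J := by
    rw [h0]
    exact_mod_cast h.le
  have h2 : |(m : ℝ)| / J ≤ 1 := (div_le_one hJ0).2 h1
  rw [max_eq_right (by linarith), Nat.cast_sub h.le, ← h0]
  field_simp

theorem tt_nonneg (J : ℕ) (m : ℤ) : 0 ≤ tt J m := le_max_left _ _

theorem tr_vc (J : ℕ) (m n : ℤ) : tr J (vc m n) = tt J m * tt J n := by
  unfold tr vc tt
  simp

theorem vc_eq {l : K3} (h : l 2 = 0) : vc (l 0) (l 1) = l := by
  funext i
  unfold vc
  fin_cases i
  · rfl
  · rfl
  · simp [h]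

theorem vc_inj : Function.Injective fun p : ℤ × ℤ => vc p.1 p.2 := by
  intro p q h
  have h0 := congrFun h 0
  have h1 := congrFun h 1
  simp only [vc, Matrix.cons_val_zero, Matrix.cons_val_one] at h0 h1
  exact Prod.ext h0 h1

theorem tr_out {J : ℕ} (hJ : 1 ≤ J) {l : K3} (h : l ∉ SS J) : tr J l = 0 := by
  by_cases h2 : l 2 = 0
  · rw [← vc_eq h2, tr_vc]
    by_cases h0 : l 0 ∈ RR J
    · by_cases h1 : l 1 ∈ RR J
      · exact absurd (Finset.mem_image.2 ⟨(l 0, l 1), Finset.mem_product.2 ⟨h0, h1⟩, vc_eq h2⟩) h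
      · rw [tt_out hJ h1, mul_zero]
    · rw [tt_out hJ h0, zero_mul]
  · unfold tr
    rw [if_neg h2]

theorem tsum_tr {J : ℕ} (hJ : 1 ≤ J) (h : K3 → ℝ) :
    ∑' l, tr J l * h l = ∑ l ∈ SS J, tr J l * h l :=
  tsum_eq_sum fun l hl => by rw [tr_out hJ hl, zero_mul]

theorem sum_tr (J : ℕ) (h : K3 → ℝ) :
    ∑ l ∈ SS J, tr J l * h l = ∑ m ∈ RR J, tt J m * ∑ n ∈ RR J, tt J n * h (vc m n) := by
  unfold SS
  rw [Finset.sum_image fun p _ q _ hpq => vc_inj hpq, Finset.sum_product]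
  refine Finset.sum_congr rfl fun m _ => ?_
  rw [Finset.mul_sum]
  refine Finset.sum_congr rfl fun n _ => ?_
  rw [tr_vc, mul_assoc]

theorem fib (J : ℕ) (m : ℤ) : ((Finset.range J ×ˢ Finset.range J).filter
    (fun p : ℕ × ℕ => (p.1 : ℤ) - p.2 = m)).card = J - m.natAbs := by
  rw [← Finset.card_range (J - m.natAbs)]
  refine Finset.card_nbij' (fun p => min p.1 p.2) (fun c => (c + m.toNat, c + (-m).toNat))
    ?_ ?_ ?_ ?_
  · intro p hp
    rw [Finset.mem_coe, Finset.mem_filter, Finset.mem_product, Finset.mem_range,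
      Finset.mem_range] at hp
    rw [Finset.mem_coe, Finset.mem_range]
    show min p.1 p.2 < _
    omega
  · intro c hc
    rw [Finset.mem_coe, Finset.mem_range] at hc
    rw [Finset.mem_coe, Finset.mem_filter, Finset.mem_product, Finset.mem_range, Finset.mem_range]
    simp only
    omega
  · intro p hp
    rw [Finset.mem_coe, Finset.mem_filter, Finset.mem_product, Finset.mem_range,
      Finset.mem_range] at hp
    refine Prod.ext ?_ ?_
    · simp only
      omega
    · simp only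
      omega
  · intro c hc
    simp only
    omega

/-- the triangle function counts differences -/
theorem one_d {J : ℕ} (hJ : 1 ≤ J) (g : ℤ → ℝ) :
    ∑ a ∈ Finset.range J, ∑ b ∈ Finset.range J, g ((a : ℤ) - b) =
      J * ∑ m ∈ RR J, tt J m * g m := by
  rw [← Finset.sum_product', ← Finset.sum_fiberwise_of_maps_to (t := RR J)
    (g := fun p : ℕ × ℕ => (p.1 : ℤ) - p.2), Finset.mul_sum]
  · refine Finset.sum_congr rfl fun m hm => ?_
    rw [Finset.sum_congr rfl (g := fun _ => g m), Finset.sum_const, fib, nsmul_eq_mul,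
      ← tt_in hJ hm, mul_assoc]
    intro p hp
    rw [(Finset.mem_filter.1 hp).2]
  · intro p hp
    rw [Finset.mem_product, Finset.mem_range, Finset.mem_range] at hp
    rw [mem_RR]
    show ((p.1 : ℤ) - p.2).natAbs < J
    omega

theorem two_d {J : ℕ} (hJ : 1 ≤ J) (h : K3 → ℝ) :
    ∑ a ∈ Finset.range J, ∑ b ∈ Finset.range J, ∑ c ∈ Finset.range J, ∑ d ∈ Finset.range J,
      h (vc ((a : ℤ) - b) ((c : ℤ) - d)) = (J : ℝ) ^ 2 * ∑ l ∈ SS J, tr J l * h l := by
  rw [sum_tr]
  rw [one_d hJ (fun m => ∑ c ∈ Finset.range J, ∑ d ∈ Finset.range J, h (vc m ((c : ℤ) - d)))]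
  have h1 : ∀ m, ∑ c ∈ Finset.range J, ∑ d ∈ Finset.range J, h (vc m ((c : ℤ) - d)) =
      J * ∑ n ∈ RR J, tt J n * h (vc m n) := fun m => one_d hJ (fun n => h (vc m n))
  simp only [h1]
  rw [pow_two, mul_assoc]
  congr 1
  rw [Finset.mul_sum]
  refine Finset.sum_congr rfl fun m _ => ?_
  ring

/-- the two-dimensional Fejer kernel -/
noncomputable def FF (J : ℕ) (x : V) : ℝ :=
  ∑ l ∈ SS J, tr J l * Real.cos (2 * Real.pi * ph l x)

theorem ph_vc (m n : ℤ) (x : V) : ph (vc m n) x = m * x 0 + n * x 1 := by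
  unfold ph vc
  rw [Fin.sum_univ_three]
  simp

theorem FF_nonneg {J : ℕ} (hJ : 1 ≤ J) (x : V) : 0 ≤ FF J x := by
  have hJ0 : (0 : ℝ) < J := by exact_mod_cast hJ
  have h1 := two_d hJ (fun l => Real.cos (2 * Real.pi * ph l x))
  have h2 : ∑ a ∈ Finset.range J, ∑ b ∈ Finset.range J, ∑ c ∈ Finset.range J,
      ∑ d ∈ Finset.range J, Real.cos (2 * Real.pi * ph (vc ((a : ℤ) - b) ((c : ℤ) - d)) x) =
      ‖∑ a ∈ Finset.range J, Complex.exp ((2 * Real.pi * (a * x 0) : ℝ) * Complex.I)‖ ^ 2 *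
        ‖∑ c ∈ Finset.range J, Complex.exp ((2 * Real.pi * (c * x 1) : ℝ) * Complex.I)‖ ^ 2 := by
    have key : ((‖∑ a ∈ Finset.range J,
        Complex.exp ((2 * Real.pi * (a * x 0) : ℝ) * Complex.I)‖ ^ 2 *
        ‖∑ c ∈ Finset.range J, Complex.exp ((2 * Real.pi * (c * x 1) : ℝ) * Complex.I)‖ ^ 2 : ℝ)
          : ℂ) = ∑ a ∈ Finset.range J, ∑ b ∈ Finset.range J, ∑ c ∈ Finset.range J,
      ∑ d ∈ Finset.range J,
        Complex.exp ((2 * Real.pi * ph (vc ((a : ℤ) - b) ((c : ℤ) - d)) x : ℝ) * Complex.I) := by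
      rw [Complex.ofReal_mul, Complex.ofReal_pow, Complex.ofReal_pow, ← Complex.mul_conj',
        ← Complex.mul_conj', map_sum, map_sum, Finset.sum_mul_sum, Finset.sum_mul_sum,
        Finset.sum_mul]
      refine Finset.sum_congr rfl fun a _ => ?_
      rw [Finset.sum_mul]
      refine Finset.sum_congr rfl fun b _ => ?_
      rw [Finset.mul_sum]
      refine Finset.sum_congr rfl fun c _ => ?_
      rw [Finset.mul_sum]
      refine Finset.sum_congr rfl fun d _ => ?_
      rw [← Complex.exp_conj, ← Complex.exp_conj, ← Complex.exp_add, ← Complex.exp_add,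
        ← Complex.exp_add, ph_vc]
      congr 1
      simp only [map_mul, Complex.conj_I, Complex.conj_ofReal]
      push_cast
      ring
    have key2 := congrArg Complex.re key
    rw [Complex.ofReal_re] at key2
    rw [key2]
    simp only [Complex.re_sum, Complex.exp_ofReal_mul_I_re]
  have h3 : 0 ≤ (J : ℝ) ^ 2 * FF J x := by
    unfold FF
    rw [← h1, h2]
    positivity
  exact nonneg_of_mul_nonneg_right h3 (by positivity)

theorem cos_cont (l : K3) : Continuous fun x : V => Real.cos (2 * Real.pi * ph l x) := by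
  unfold ph
  fun_prop

theorem FF_cont (J : ℕ) : Continuous (FF J) := by
  unfold FF
  exact continuous_finsetSum _ fun l _ => continuous_const.mul (cos_cont l)

theorem int_cos (l : K3) :
    ∫ x in cube, Real.cos (2 * Real.pi * ph l x) = if l = 0 then 1 else 0 := by
  have h := congrArg Complex.re (integral_ee l)
  rw [Pool.Agent.N977.K.re_integral (ee_continuous _)] at h
  have e : ∀ x : V, (ee l x).re = Real.cos (2 * Real.pi * ph l x) := by
    intro x
    unfold ee
    have : (2 * Real.pi * Complex.I * (ph l x : ℂ)) =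
        ((2 * Real.pi * ph l x : ℝ) : ℂ) * Complex.I := by
      push_cast
      ring
    rw [this, Complex.exp_ofReal_mul_I_re]
  simp only [e] at h
  rw [h]
  split_ifs <;> rfl

theorem int_FF {J : ℕ} (hJ : 1 ≤ J) : ∫ x in cube, FF J x = 1 := by
  unfold FF
  rw [integral_finsetSum]
  · have h1 : ∀ l, ∫ x in cube, tr J l * Real.cos (2 * Real.pi * ph l x) =
        tr J l * if l = 0 then 1 else 0 := by
      intro l
      rw [integral_const_mul, int_cos]
    simp only [h1, mul_ite, mul_one, mul_zero]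
    rw [Finset.sum_ite_eq' (SS J) (0 : K3) (tr J)]
    have h2 : (0 : K3) ∈ SS J := by
      refine Finset.mem_image.2 ⟨(0, 0), Finset.mem_product.2 ⟨?_, ?_⟩, ?_⟩
      · rw [mem_RR]
        exact hJ
      · rw [mem_RR]
        exact hJ
      · funext i
        fin_cases i <;> rfl
    rw [if_pos h2]
    unfold tr
    simp
  · intro l _
    exact integrableOn_cube (continuous_const.mul (cos_cont l))

theorem tr_nonneg (J : ℕ) (l : K3) : 0 ≤ tr J l := by
  unfold tr
  split_ifs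
  · exact mul_nonneg (le_max_left _ _) (le_max_left _ _)
  · exact le_rfl

theorem om_nonneg (J : ℕ) : 0 ≤ om J := by
  unfold om
  positivity

theorem om_le {J : ℕ} (hJ : 1 ≤ J) : 2 * om J ≤ 3 / J := by
  have hJ0 : (0 : ℝ) < J := by exact_mod_cast hJ
  have h1 : ∑' l, tr J l ^ 2 = ∑ l ∈ SS J, tr J l ^ 2 :=
    tsum_eq_sum fun l hl => by rw [tr_out hJ hl]; norm_num
  have h2 := two_d hJ (fun _ => 1)
  simp only [Finset.sum_const, Finset.card_range, nsmul_eq_mul, mul_one] at h2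
  have h3 : ∑ l ∈ SS J, tr J l = (J : ℝ) ^ 2 := by
    have : (J : ℝ) ^ 2 * ∑ l ∈ SS J, tr J l = (J : ℝ) ^ 2 * (J : ℝ) ^ 2 := by
      rw [← h2]
      ring
    exact mul_left_cancel₀ (by positivity) this
  have h4 : ((SS J).card : ℝ) ≤ (2 * J) ^ 2 := by
    have c1 : (SS J).card ≤ (2 * J) ^ 2 := by
      unfold SS
      refine Finset.card_image_le.trans ?_
      rw [Finset.card_product]
      unfold RR
      rw [Int.card_Ioo, pow_two]
      exact Nat.mul_le_mul (by omega) (by omega)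
    exact_mod_cast c1
  have h5 : (∑ l ∈ SS J, tr J l) ^ 2 ≤ (SS J).card * ∑ l ∈ SS J, tr J l ^ 2 :=
    sq_sum_le_card_mul_sum_sq
  have h6 : 0 ≤ ∑ l ∈ SS J, tr J l ^ 2 := Finset.sum_nonneg fun l _ => sq_nonneg _
  have h7 : (J : ℝ) ^ 2 / 4 ≤ ∑ l ∈ SS J, tr J l ^ 2 := by
    rw [h3] at h5
    have h8 := h5.trans (mul_le_mul_of_nonneg_right h4 h6)
    have h9 : (J : ℝ) ^ 2 * ((J : ℝ) ^ 2 / 4) ≤ (J : ℝ) ^ 2 * ∑ l ∈ SS J, tr J l ^ 2 := by
      nlinarith
    exact le_of_mul_le_mul_left h9 (by positivity)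
  unfold om
  rw [h1]
  have h10 : 2 * (J : ℝ) / 3 ≤ √(2 * ∑ l ∈ SS J, tr J l ^ 2) := by
    refine Real.le_sqrt_of_sq_le ?_
    nlinarith
  have h11 : 0 < √(2 * ∑ l ∈ SS J, tr J l ^ 2) := by
    refine lt_of_lt_of_le ?_ h10
    positivity
  rw [mul_one_div, div_le_div_iff₀ h11 hJ0]
  nlinarith

theorem Xf_eq (e : Fin 2) (n : ℕ) (x : V) : Xf (Gp e n) x =
    2 * om (Jn n) * FF (Jn n) x * Real.cos (2 * Real.pi * ph (qq e n) x) := by
  have hJ : 1 ≤ Jn n := le_max_left _ _
  obtain ⟨J, hJd⟩ : ∃ J, J = Jn n := ⟨_, rfl⟩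
  obtain ⟨q, hq⟩ : ∃ q, q = qq e n := ⟨_, rfl⟩
  unfold Xf Gp
  rw [← hJd] at hJ
  rw [← hJd, ← hq]
  have hfin : ∀ (σ : K3 ≃ K3) (h : K3 → ℝ), Summable fun k => tr J (σ k) * h k := by
    intro σ h
    refine summable_of_hasFiniteSupport (Set.Finite.subset
      ((SS J).finite_toSet.preimage σ.injective.injOn) ?_)
    intro k hk
    by_contra hc
    apply hk
    show tr J (σ k) * h k = 0
    rw [tr_out hJ hc, zero_mul]
  have h1 : ∀ k, om J * (tr J (k - q) + tr J (k + q)) * Real.cos (2 * Real.pi * ph k x) =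
      om J * (tr J (Equiv.subRight q k) * Real.cos (2 * Real.pi * ph k x) +
        tr J (Equiv.addRight q k) * Real.cos (2 * Real.pi * ph k x)) := by
    intro k
    show _ = om J * (tr J (k - q) * _ + tr J (k + q) * _)
    ring
  simp only [h1]
  rw [tsum_mul_left, (hfin _ _).tsum_add (hfin _ _)]
  have h2 : ∑' k, tr J (Equiv.subRight q k) * Real.cos (2 * Real.pi * ph k x) =
      ∑' l, tr J l * Real.cos (2 * Real.pi * ph (l + q) x) := by
    rw [← Equiv.tsum_eq (Equiv.subRight q)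
      (fun l => tr J l * Real.cos (2 * Real.pi * ph (l + q) x))]
    refine tsum_congr fun k => ?_
    show _ = tr J (k - q) * Real.cos (2 * Real.pi * ph (k - q + q) x)
    rw [sub_add_cancel]
    rfl
  have h3 : ∑' k, tr J (Equiv.addRight q k) * Real.cos (2 * Real.pi * ph k x) =
      ∑' l, tr J l * Real.cos (2 * Real.pi * ph (l - q) x) := by
    rw [← Equiv.tsum_eq (Equiv.addRight q)
      (fun l => tr J l * Real.cos (2 * Real.pi * ph (l - q) x))]
    refine tsum_congr fun k => ?_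
    show _ = tr J (k + q) * Real.cos (2 * Real.pi * ph (k + q - q) x)
    rw [add_sub_cancel_right]
    rfl
  rw [h2, h3, tsum_tr hJ, tsum_tr hJ, ← Finset.sum_add_distrib]
  unfold FF
  rw [Finset.mul_sum, Finset.mul_sum, Finset.sum_mul]
  refine Finset.sum_congr rfl fun l _ => ?_
  have e1 : ph (l + q) x = ph l x + ph q x := by
    unfold ph
    rw [← Finset.sum_add_distrib]
    refine Finset.sum_congr rfl fun j _ => ?_
    rw [Pi.add_apply]
    push_cast
    ring
  have e2 : ph (l - q) x = ph l x - ph q x := by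
    unfold ph
    rw [← Finset.sum_sub_distrib]
    refine Finset.sum_congr rfl fun j _ => ?_
    rw [Pi.sub_apply]
    push_cast
    ring
  rw [e1, e2, mul_add (2 * Real.pi), mul_sub (2 * Real.pi), Real.cos_add, Real.cos_sub]
  ring

/-- **NSP/PK2.** -/
theorem pk2 : S_PK2 := by
  intro _ e n
  have hJ : 1 ≤ Jn n := le_max_left _ _
  have h1 : ∀ x, |Xf (Gp e n) x| ≤ 2 * om (Jn n) * FF (Jn n) x := by
    intro x
    have h2 := om_nonneg (Jn n)
    have h3 := FF_nonneg hJ x
    rw [Xf_eq, abs_mul, abs_of_nonneg (by positivity : 0 ≤ 2 * om (Jn n) * FF (Jn n) x)]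
    exact mul_le_of_le_one_right (by positivity) (Real.abs_cos_le_one _)
  have hc1 : Continuous fun x => |Xf (Gp e n) x| := by
    have : (fun x => |Xf (Gp e n) x|) = fun x => |2 * om (Jn n) * FF (Jn n) x *
        Real.cos (2 * Real.pi * ph (qq e n) x)| := by
      funext x
      rw [Xf_eq]
    rw [this]
    exact ((continuous_const.mul (FF_cont _)).mul (cos_cont _)).abs
  have hc2 : Continuous fun x => 2 * om (Jn n) * FF (Jn n) x :=
    continuous_const.mul (FF_cont _)
  calc ∫ x in cube, |Xf (Gp e n) x| ≤ ∫ x in cube, 2 * om (Jn n) * FF (Jn n) x :=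
        setIntegral_mono (integrableOn_cube hc1) (integrableOn_cube hc2) h1
    _ = 2 * om (Jn n) := by rw [integral_const_mul, int_FF hJ, mul_one]
    _ ≤ 3 / Jn n := om_le hJ

end Pool.Agent.N441.NSP
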